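import Pool.Agent.Y738.DN.Tensor
import Pool.Agent.Y738.DN.Coord

set_option maxHeartbeats 4000000

open MeasureTheory

universe u v

namespace Pool.Agent.Results.MP_79b32e_an.TensorProductsClassified

section Abstract

variable {H : Type*} [NormedAddCommGroup H] [InnerProductSpace ℂ H] [CompleteSpace H]

/-- `L` is a commutative subspace lattice on the Hilbert space `H`.  Closed subspaces are identified
with their orthogonal projections: `L` is a set of pairwise commuting orthogonal projections on `H`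
which contains `0` and `1`, is closed under meets (`P * Q`) and joins (`P + Q - P * Q`), and is
closed in the strong operator topology. -/
structure IsCSL (L : Set (H →L[ℂ] H)) : Prop where
  proj : ∀ P ∈ L, IsStarProjection P
  comm : ∀ P ∈ L, ∀ Q ∈ L, P * Q = Q * P
  zero_mem : (0 : H →L[ℂ] H) ∈ L
  one_mem : (1 : H →L[ℂ] H) ∈ L
  inf_mem : ∀ P ∈ L, ∀ Q ∈ L, P * Q ∈ L
  sup_mem : ∀ P ∈ L, ∀ Q ∈ L, P + Q - P * Q ∈ L
  sot_closed : ∀ T : H →L[ℂ] H,
    (∀ (s : Finset H) (ε : ℝ), 0 < ε → ∃ P ∈ L, ∀ x ∈ s, ‖T x - P x‖ < ε) → T ∈ L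

/-- The CSL generated by a set `G` of projections: the intersection of all CSLs which
contain `G`. -/
def generatedCSL (G : Set (H →L[ℂ] H)) : Set (H →L[ℂ] H) :=
  {P | ∀ L : Set (H →L[ℂ] H), IsCSL L → G ⊆ L → P ∈ L}

/-- `Alg L = {T : TP = PTP for all P in L}`. -/
def Alg (L : Set (H →L[ℂ] H)) : Set (H →L[ℂ] H) := {T | ∀ P ∈ L, T * P = P * T * P}

/-- `Lat A`: the orthogonal projections onto the closed invariant subspaces of `A`. -/
def Lat (A : Set (H →L[ℂ] H)) : Set (H →L[ℂ] H) :=
  {P | IsStarProjection P ∧ ∀ T ∈ A, ∀ x : H, P x = x → P (T x) = T x}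

/-- `A` has a distance constant: there is a real number `K` such that
`dist(T, A) ≤ K sup {‖(1 - P) T P‖ : P ∈ Lat A}` for all `T` in `B(H)`. -/
def HasDistanceConstant (A : Set (H →L[ℂ] H)) : Prop :=
  ∃ K : ℝ, ∀ T : H →L[ℂ] H,
    Metric.infDist T A ≤ K * sSup {r : ℝ | ∃ P ∈ Lat A, r = ‖(1 - P) * T * P‖}

/-- A chain of orthogonal projections which contains `0` and `1`.  Every nest is such a chain (a nest
is moreover closed under arbitrary meets and joins, which is not needed here). -/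
structure IsNest (N : Set (H →L[ℂ] H)) : Prop where
  proj : ∀ P ∈ N, IsStarProjection P
  zero_mem : (0 : H →L[ℂ] H) ∈ N
  one_mem : (1 : H →L[ℂ] H) ∈ N
  total : ∀ P ∈ N, ∀ Q ∈ N, P * Q = P ∨ Q * P = Q

/-- Independent commuting nests on one Hilbert space: the nests commute, and nonzero intervals
`Q i - P i` (`P i < Q i` in the `i`-th nest), one for each nest, always have a common nonzero vector
in their ranges.  (The nests `I ⊗ … ⊗ N i ⊗ … ⊗ I` of a tensor product are independent.) -/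
structure IndependentNests {ι : Type} (N : ι → Set (H →L[ℂ] H)) : Prop where
  nest : ∀ i, IsNest (N i)
  comm : ∀ i j, ∀ P ∈ N i, ∀ Q ∈ N j, P * Q = Q * P
  indep : ∀ P Q : ι → (H →L[ℂ] H),
    (∀ i, P i ∈ N i ∧ Q i ∈ N i ∧ P i * Q i = P i ∧ P i ≠ Q i) →
    ∃ x : H, x ≠ 0 ∧ ∀ i, P i x = 0 ∧ Q i x = x

end Abstract

section Tensor

variable {k : ℕ} {H : Fin k → Type u} [∀ i, NormedAddCommGroup (H i)]
  [∀ i, InnerProductSpace ℂ (H i)] {K : Type v} [NormedAddCommGroup K] [InnerProductSpace ℂ K]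

/-- The Hilbert space `K` together with `τ : (x_1, …, x_k) ↦ x_1 ⊗ … ⊗ x_k` is the Hilbert space
tensor product of `H_1, …, H_k`: the inner product of two elementary tensors is the product of the
inner products, and the elementary tensors span a dense subspace. -/
structure IsHilbertTensor (τ : (∀ i, H i) → K) : Prop where
  inner_eq : ∀ x y, inner ℂ (τ x) (τ y) = ∏ i, (inner ℂ (x i) (y i) : ℂ)
  dense : Dense ((Submodule.span ℂ (Set.range τ) : Submodule ℂ K) : Set K)

/-- `I ⊗ … ⊗ N ⊗ … ⊗ I` with `N` in the `i`-th place: the operators `Q` on `K` which are of the form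
`I ⊗ … ⊗ P ⊗ … ⊗ I` for some `P` in `N`. -/
def ampliation (τ : (∀ i, H i) → K) (i : Fin k) (N : Set (H i →L[ℂ] H i)) : Set (K →L[ℂ] K) :=
  {Q | ∃ P ∈ N, ∀ x, Q (τ x) = τ (Function.update x i (P (x i)))}

/-- `N_1 ⊗ … ⊗ N_k`: the CSL generated by the commuting nests `I ⊗ … ⊗ N_i ⊗ … ⊗ I`. -/
def tensorNests [CompleteSpace K] (τ : (∀ i, H i) → K) (N : ∀ i, Set (H i →L[ℂ] H i)) :
    Set (K →L[ℂ] K) :=
  generatedCSL (⋃ i, ampliation τ i (N i))

end Tensor

/-- Lebesgue measure on `[0,1]`. -/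
noncomputable def leb : Measure ℝ := volume.restrict (Set.Icc 0 1)

/-- The Hilbert space `L²([0,1]ⁿ)`. -/
abbrev L2Cube (n : ℕ) : Type := Lp ℂ 2 (Measure.pi (fun _ : Fin n => leb))

/-- The Volterra nest in the `i`-th variable of `L²([0,1]ⁿ)`: the orthogonal projections onto the
spaces `{f : f(z) = 0 for almost all z with z_i ≥ t}`, `0 ≤ t ≤ 1`. -/
def volterraCoord (n : ℕ) (i : Fin n) : Set (L2Cube n →L[ℂ] L2Cube n) :=
  {P | IsStarProjection P ∧ ∃ t ∈ Set.Icc (0 : ℝ) 1,
    ∀ f : L2Cube n, P f = f ↔ ∀ᵐ z ∂(Measure.pi (fun _ : Fin n => leb)), t ≤ z i → f z = 0}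

/-- `N ⊗ … ⊗ N` (`n` factors), `N` the Volterra nest. -/
def volterraPower (n : ℕ) : Set (L2Cube n →L[ℂ] L2Cube n) :=
  generatedCSL (⋃ i, volterraCoord n i)

/-- The Hilbert space `L²([0,1]²) = L²[0,1] ⊗ L²[0,1]`, with the product measure. -/
abbrev L2Square : Type := Lp ℂ 2 (leb.prod leb)

/-- The nest `{N_t ⊗ I : 0 ≤ t ≤ 1}`, where `N` is the Volterra nest. -/
def volterraFst : Set (L2Square →L[ℂ] L2Square) :=
  {P | IsStarProjection P ∧ ∃ t ∈ Set.Icc (0 : ℝ) 1,
    ∀ f : L2Square, P f = f ↔ ∀ᵐ z ∂(leb.prod leb), t ≤ z.1 → f z = 0}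

/-- The nest `{I ⊗ N_t : 0 ≤ t ≤ 1}`, where `N` is the Volterra nest. -/
def volterraSnd : Set (L2Square →L[ℂ] L2Square) :=
  {P | IsStarProjection P ∧ ∃ t ∈ Set.Icc (0 : ℝ) 1,
    ∀ f : L2Square, P f = f ↔ ∀ᵐ z ∂(leb.prod leb), t ≤ z.2 → f z = 0}

/-- `N ⊗ N`: the CSL generated by the two commuting nests `{N_t ⊗ I}` and `{I ⊗ N_t}`. -/
def volterraSquare : Set (L2Square →L[ℂ] L2Square) :=
  generatedCSL (volterraFst ∪ volterraSnd)

/-! ### translation to the helper files -/

section Translate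

open Pool.Agent.Y738.DN

variable {H : Type*} [NormedAddCommGroup H] [InnerProductSpace ℂ H] [CompleteSpace H]

theorem isCSL_iff (L : Set (H →L[ℂ] H)) : IsCSL L ↔ DC.IsCSL L :=
  ⟨fun h => ⟨h.proj, h.comm, h.zero_mem, h.one_mem, h.inf_mem, h.sup_mem, h.sot_closed⟩,
   fun h => ⟨h.proj, h.comm, h.zero_mem, h.one_mem, h.inf_mem, h.sup_mem, h.sot_closed⟩⟩

theorem generated_eq (G : Set (H →L[ℂ] H)) : generatedCSL G = DC.generated G := by
  ext P
  constructor
  · intro h L hL hG
    exact h L ((isCSL_iff L).mpr hL) hG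
  · intro h L hL hG
    exact h L ((isCSL_iff L).mp hL) hG

theorem Lat_eq (A : Set (H →L[ℂ] H)) : Lat A = DC.LatOf A := by
  ext P
  constructor
  · rintro ⟨hP, h⟩
    refine ⟨hP, fun T hT => ?_⟩
    ext x
    have h1 : P (P x) = P x := by
      have := congrArg (fun Z : H →L[ℂ] H => Z x) hP.isIdempotentElem
      exact this
    exact (h T hT (P x) h1).symm
  · rintro ⟨hP, h⟩
    refine ⟨hP, fun T hT x hx => ?_⟩
    have h1 := congrArg (fun Z : H →L[ℂ] H => Z x) (h T hT)
    have h2 : T (P x) = P (T (P x)) := h1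
    rw [hx] at h2
    exact h2.symm

theorem hasDistanceConstant_iff (A : Set (H →L[ℂ] H)) :
    HasDistanceConstant A ↔ DC.HasDistanceConstant A := by
  unfold HasDistanceConstant DC.HasDistanceConstant
  rw [Lat_eq]

theorem isNest_iff (N : Set (H →L[ℂ] H)) : IsNest N ↔ IsNst N :=
  ⟨fun h => ⟨h.proj, h.zero_mem, h.one_mem, h.total⟩,
   fun h => ⟨h.proj, h.zero_mem, h.one_mem, h.total⟩⟩

end Translate

open Pool.Agent.Y738.DN

/-- the classification for independent commuting nests -/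
theorem independent_part (H : Type u) [NormedAddCommGroup H] [InnerProductSpace ℂ H]
    [CompleteSpace H] (k : ℕ) (N : Fin k → Set (H →L[ℂ] H)) (h : IndependentNests N) :
    IsCSL (generatedCSL (⋃ i, N i)) ∧
      (HasDistanceConstant (Alg (generatedCSL (⋃ i, N i))) ↔
        ∀ i j, i ≠ j → (N i).Finite ∨ (N j).Finite) := by
  have hN : ∀ i, IsNst (N i) := fun i => (isNest_iff _).1 (h.nest i)
  have hG : IsFam (⋃ i, N i) := by
    refine ⟨fun P hP => ?_, fun P hP Q hQ => ?_⟩
    · obtain ⟨i, hi⟩ := Set.mem_iUnion.1 hP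
      exact (hN i).proj P hi
    · obtain ⟨i, hi⟩ := Set.mem_iUnion.1 hP
      obtain ⟨j, hj⟩ := Set.mem_iUnion.1 hQ
      exact h.comm i j P hi Q hj
  rw [generated_eq, isCSL_iff, hasDistanceConstant_iff]
  exact ⟨generated_csl hG, constant_iff hN hG h.indep⟩

/-- the classification for tensor products of nests -/
theorem tensor_part (k : ℕ) (H : Fin k → Type u) [∀ i, NormedAddCommGroup (H i)]
    [∀ i, InnerProductSpace ℂ (H i)] [∀ i, CompleteSpace (H i)] [∀ i, Nontrivial (H i)]
    (K : Type v) [NormedAddCommGroup K] [InnerProductSpace ℂ K] [CompleteSpace K]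
    (τ : (∀ i, H i) → K) (hτ : IsHilbertTensor τ) (N : ∀ i, Set (H i →L[ℂ] H i))
    (hN : ∀ i, IsNest (N i)) :
    IsCSL (tensorNests τ N) ∧
      (HasDistanceConstant (Alg (tensorNests τ N)) ↔
        ∀ i j, i ≠ j → (N i).Finite ∨ (N j).Finite) := by
  have hτ' : IsTens τ := ⟨hτ.inner_eq, hτ.dense⟩
  have hN' : ∀ i, IsNst (N i) := fun i => (isNest_iff _).1 (hN i)
  unfold tensorNests
  rw [generated_eq, isCSL_iff, hasDistanceConstant_iff]
  exact ⟨generated_csl (amp_fam hτ' hN'), tensor_iff hτ' hN'⟩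

theorem cube_part (n : ℕ) :
    IsCSL (volterraPower n) ∧ (HasDistanceConstant (Alg (volterraPower n)) ↔ n ≤ 1) := by
  unfold volterraPower
  rw [generated_eq, isCSL_iff, hasDistanceConstant_iff]
  exact cube_iff n

theorem square_eq : volterraFst ∪ volterraSnd = ⋃ b : Bool, coordNest (DC.mu01.prod DC.mu01)
      (fun z : ℝ × ℝ => if b then z.1 else z.2) := by
  ext P
  constructor
  · rintro (h | h)
    · exact Set.mem_iUnion.2 ⟨true, h⟩
    · exact Set.mem_iUnion.2 ⟨false, h⟩
  · intro h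
    obtain ⟨b, hb⟩ := Set.mem_iUnion.1 h
    cases b with
    | false => exact Or.inr hb
    | true => exact Or.inl hb

theorem square_part : IsCSL volterraSquare ∧ ¬ HasDistanceConstant (Alg volterraSquare) := by
  unfold volterraSquare
  rw [generated_eq, isCSL_iff, hasDistanceConstant_iff, square_eq]
  exact square_no

/-- **Distance constants of tensor products of nests.**
1. If `N_1, …, N_k` are independent commuting nests on a Hilbert space, then they generate a CSL `L`
(of width at most `k`), and `Alg L` has a distance constant if and only if at most one of the nests is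
infinite.
2. In particular, for arbitrary nests `N_1, …, N_k` on nonzero Hilbert spaces, the algebra
`Alg (N_1 ⊗ … ⊗ N_k)` has a distance constant if and only if at most one of the nests is infinite.
3. The algebra of the `n`-fold tensor power of the Volterra nest on `L²([0,1]ⁿ)` has a distance
constant if and only if `n ≤ 1`.
4. `Alg (N ⊗ N)` on `L²([0,1]²)` has no distance constant. -/
theorem result :
    (∀ (H : Type u) [NormedAddCommGroup H] [InnerProductSpace ℂ H] [CompleteSpace H]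
      (k : ℕ) (N : Fin k → Set (H →L[ℂ] H)), IndependentNests N →
      IsCSL (generatedCSL (⋃ i, N i)) ∧
        (HasDistanceConstant (Alg (generatedCSL (⋃ i, N i))) ↔
          ∀ i j, i ≠ j → (N i).Finite ∨ (N j).Finite)) ∧
    (∀ (k : ℕ) (H : Fin k → Type u) [∀ i, NormedAddCommGroup (H i)]
      [∀ i, InnerProductSpace ℂ (H i)] [∀ i, CompleteSpace (H i)] [∀ i, Nontrivial (H i)]
      (K : Type v) [NormedAddCommGroup K] [InnerProductSpace ℂ K] [CompleteSpace K]
      (τ : (∀ i, H i) → K), IsHilbertTensor τ →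
      ∀ N : ∀ i, Set (H i →L[ℂ] H i), (∀ i, IsNest (N i)) →
        IsCSL (tensorNests τ N) ∧
          (HasDistanceConstant (Alg (tensorNests τ N)) ↔
            ∀ i j, i ≠ j → (N i).Finite ∨ (N j).Finite)) ∧
    (∀ n : ℕ, IsCSL (volterraPower n) ∧
      (HasDistanceConstant (Alg (volterraPower n)) ↔ n ≤ 1)) ∧
    (IsCSL volterraSquare ∧ ¬ HasDistanceConstant (Alg volterraSquare)) := by
  refine ⟨?_, ?_, cube_part, square_part⟩
  · intro H _ _ _ k N h
    exact independent_part H k N h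
  · intro k H _ _ _ _ K _ _ _ τ hτ N hN
    exact tensor_part k H K τ hτ N hN

end Pool.Agent.Results.MP_79b32e_an.TensorProductsClassified
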